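import Mathlib

/-!
# Schur positive symmetric polynomials in two variables

A polynomial `F` in `x`, `y` is `Pos` if its coefficients on every antidiagonal are symmetric and
increase towards the middle. A polynomial `m` is `Mul` if multiplication with `m` preserves `Pos`.
-/

set_option autoImplicit false

namespace Pool.Agent.Lib.MP_24a1b5_co.Cat

open Polynomial

/-- polynomials in `x = C X` and `y = X` -/
abbrev A := Polynomial (Polynomial ℤ)

/-- the variable `x` -/
noncomputable def x : A := Polynomial.C Polynomial.X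

/-- the variable `y` -/
noncomputable def y : A := Polynomial.X

/-- the coefficient of `x ^ i y ^ j` (zero for negative exponents) -/
noncomputable def cf (F : A) (i j : ℤ) : ℤ :=
  if 0 ≤ i ∧ 0 ≤ j then (F.coeff j.toNat).coeff i.toNat else 0

/-- coefficients on antidiagonals are symmetric and increase towards the middle -/
def Pos (F : A) : Prop :=
  ∀ a b c d : ℤ, a + b = c + d → min c d ≤ a → a ≤ max c d → cf F c d ≤ cf F a b

/-- multiplication with `m` preserves `Pos` -/
def Mul (m : A) : Prop := ∀ F, Pos F → Pos (m * F)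

lemma cf_add (F G : A) (i j : ℤ) : cf (F + G) i j = cf F i j + cf G i j := by
  unfold cf
  split_ifs <;> simp

lemma cf_sub (F G : A) (i j : ℤ) : cf (F - G) i j = cf F i j - cf G i j := by
  unfold cf
  split_ifs <;> simp

lemma cf_zero (i j : ℤ) : cf 0 i j = 0 := by
  unfold cf
  split_ifs <;> simp

lemma cf_of_neg_left {F : A} {i j : ℤ} (h : i < 0) : cf F i j = 0 :=
  if_neg (fun h' => absurd h'.1 (not_le.2 h))

lemma cf_of_neg_right {F : A} {i j : ℤ} (h : j < 0) : cf F i j = 0 :=
  if_neg (fun h' => absurd h'.2 (not_le.2 h))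

lemma cf_nat (F : A) (i j : ℕ) : cf F i j = (F.coeff j).coeff i := by
  unfold cf
  rw [if_pos ⟨Int.natCast_nonneg _, Int.natCast_nonneg _⟩, Int.toNat_natCast, Int.toNat_natCast]

lemma cf_x (F : A) (i j : ℤ) : cf (x * F) i j = cf F (i - 1) j := by
  rcases lt_or_ge j 0 with hj | hj
  · rw [cf_of_neg_right hj, cf_of_neg_right hj]
  obtain ⟨b, rfl⟩ := Int.eq_ofNat_of_zero_le hj
  rcases lt_or_ge i 1 with hi | hi
  · rw [cf_of_neg_left (i := i - 1) (by omega)]
    rcases lt_or_ge i 0 with hi0 | hi0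
    · rw [cf_of_neg_left hi0]
    · obtain rfl : i = ((0 : ℕ) : ℤ) := by omega
      rw [cf_nat, x, Polynomial.coeff_C_mul, Polynomial.coeff_X_mul_zero]
  · obtain ⟨a, ha⟩ := Int.eq_ofNat_of_zero_le (show 0 ≤ i - 1 by omega)
    obtain rfl : i = ((a + 1 : ℕ) : ℤ) := by omega
    have : ((a + 1 : ℕ) : ℤ) - 1 = (a : ℤ) := by omega
    rw [this, cf_nat, cf_nat, x, Polynomial.coeff_C_mul, Polynomial.coeff_X_mul]

lemma cf_y (F : A) (i j : ℤ) : cf (y * F) i j = cf F i (j - 1) := by
  rcases lt_or_ge i 0 with hi | hi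
  · rw [cf_of_neg_left hi, cf_of_neg_left hi]
  obtain ⟨a, rfl⟩ := Int.eq_ofNat_of_zero_le hi
  rcases lt_or_ge j 1 with hj | hj
  · rw [cf_of_neg_right (j := j - 1) (by omega)]
    rcases lt_or_ge j 0 with hj0 | hj0
    · rw [cf_of_neg_right hj0]
    · obtain rfl : j = ((0 : ℕ) : ℤ) := by omega
      rw [cf_nat, y, Polynomial.coeff_X_mul_zero, Polynomial.coeff_zero]
  · obtain ⟨b, hb⟩ := Int.eq_ofNat_of_zero_le (show 0 ≤ j - 1 by omega)
    obtain rfl : j = ((b + 1 : ℕ) : ℤ) := by omega
    have : ((b + 1 : ℕ) : ℤ) - 1 = (b : ℤ) := by omega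
    rw [this, cf_nat, cf_nat, y, Polynomial.coeff_X_mul]

lemma cf_xpow (F : A) (n : ℕ) (i j : ℤ) : cf (x ^ n * F) i j = cf F (i - n) j := by
  induction n generalizing i with
  | zero => simp
  | succ n ih =>
    have e : i - 1 - (n : ℤ) = i - ((n + 1 : ℕ) : ℤ) := by push_cast; ring
    rw [pow_succ', mul_assoc, cf_x, ih, e]

lemma cf_ypow (F : A) (n : ℕ) (i j : ℤ) : cf (y ^ n * F) i j = cf F i (j - n) := by
  induction n generalizing j with
  | zero => simp
  | succ n ih =>
    have e : j - 1 - (n : ℤ) = j - ((n + 1 : ℕ) : ℤ) := by push_cast; ring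
    rw [pow_succ', mul_assoc, cf_y, ih, e]

lemma Pos.symm {F : A} (h : Pos F) (i j : ℤ) : cf F i j = cf F j i :=
  le_antisymm (h j i i j (by ring) (min_le_right _ _) (le_max_right _ _))
    (h i j j i (by ring) (min_le_right _ _) (le_max_right _ _))

lemma Pos.zero : Pos 0 := by
  intro a b c d _ _ _
  rw [cf_zero, cf_zero]

lemma cf_one (i j : ℤ) : cf 1 i j = if i = 0 ∧ j = 0 then 1 else 0 := by
  rcases lt_or_ge i 0 with hi | hi
  · rw [cf_of_neg_left hi, if_neg (fun h => by omega)]
  rcases lt_or_ge j 0 with hj | hj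
  · rw [cf_of_neg_right hj, if_neg (fun h => by omega)]
  obtain ⟨a, rfl⟩ := Int.eq_ofNat_of_zero_le hi
  obtain ⟨b, rfl⟩ := Int.eq_ofNat_of_zero_le hj
  rw [cf_nat, Polynomial.coeff_one]
  by_cases hb : b = 0
  · rw [if_pos hb, Polynomial.coeff_one]
    by_cases ha : a = 0
    · rw [if_pos ha, if_pos ⟨by omega, by omega⟩]
    · rw [if_neg ha, if_neg (fun h => ha (by omega))]
  · rw [if_neg hb, Polynomial.coeff_zero, if_neg (fun h => hb (by omega))]

lemma Pos.one : Pos 1 := by
  intro a b c d h h1 h2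
  rw [cf_one, cf_one]
  by_cases h3 : c = 0 ∧ d = 0
  · obtain ⟨rfl, rfl⟩ := h3
    rw [min_self] at h1
    rw [max_self] at h2
    rw [if_pos ⟨rfl, rfl⟩, if_pos ⟨by omega, by omega⟩]
  · rw [if_neg h3]
    split_ifs
    · exact zero_le_one
    · exact le_refl _

lemma Pos.add {F G : A} (hF : Pos F) (hG : Pos G) : Pos (F + G) := by
  intro a b c d h h1 h2
  rw [cf_add, cf_add]
  exact add_le_add (hF a b c d h h1 h2) (hG a b c d h h1 h2)

/-- symmetric and decreasing away from the diagonal -/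
lemma pos_of_step {F : A} (hs : ∀ i j, cf F i j = cf F j i)
    (h : ∀ i j : ℤ, j ≤ i → cf F (i + 1) (j - 1) ≤ cf F i j) : Pos F := by
  have key : ∀ (n : ℕ) (i j : ℤ), j ≤ i → cf F (i + n) (j - n) ≤ cf F i j := by
    intro n
    induction n with
    | zero => intro i j _; simp
    | succ n ih =>
      intro i j hij
      refine le_trans ?_ (ih i j hij)
      have := h (i + n) (j - n) (by omega)
      have e1 : i + ((n + 1 : ℕ) : ℤ) = i + n + 1 := by push_cast; ring
      have e2 : j - ((n + 1 : ℕ) : ℤ) = j - n - 1 := by push_cast; ring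
      rw [e1, e2]
      exact this
  have key2 : ∀ a b c d : ℤ, a + b = c + d → d ≤ c → b ≤ a → a ≤ c → cf F c d ≤ cf F a b := by
    intro a b c d h1 h2 h3 h4
    have := key (c - a).toNat a b h3
    have e : ((c - a).toNat : ℤ) = c - a := Int.toNat_of_nonneg (by omega)
    rw [e] at this
    have e1 : a + (c - a) = c := by ring
    have e2 : b - (c - a) = d := by linarith
    rwa [e1, e2] at this
  intro a b c d h0 h1 h2
  have h3 : ∀ c d : ℤ, a + b = c + d → d ≤ c → d ≤ a → a ≤ c → cf F c d ≤ cf F a b := by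
    intro c d h0 h1 h2 h3
    rcases le_total b a with hb | hb
    · exact key2 a b c d h0 h1 hb h3
    · rw [hs a b]
      exact key2 b a c d (by linarith) h1 hb (by linarith)
  rcases le_total c d with hcd | hcd
  · rw [min_eq_left hcd] at h1; rw [max_eq_right hcd] at h2
    rw [hs c d]
    exact h3 d c (by linarith) hcd h1 h2
  · rw [min_eq_right hcd] at h1; rw [max_eq_left hcd] at h2
    exact h3 c d h0 hcd h1 h2

lemma Mul.one : Mul 1 := fun F hF => by rwa [one_mul]

lemma Mul.zero : Mul 0 := fun F _ => by rw [zero_mul]; exact Pos.zero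

lemma Mul.add {a b : A} (ha : Mul a) (hb : Mul b) : Mul (a + b) := fun F hF => by
  rw [add_mul]; exact (ha F hF).add (hb F hF)

lemma Mul.mul {a b : A} (ha : Mul a) (hb : Mul b) : Mul (a * b) := fun F hF => by
  rw [mul_assoc]; exact ha _ (hb F hF)

lemma Mul.pos {a : A} (ha : Mul a) : Pos a := by
  have := ha 1 Pos.one
  rwa [mul_one] at this

lemma Mul.pow {a : A} (ha : Mul a) (n : ℕ) : Mul (a ^ n) := by
  induction n with
  | zero => rw [pow_zero]; exact Mul.one
  | succ n ih => rw [pow_succ]; exact ih.mul ha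

lemma Mul.e2 : Mul (x * y) := by
  intro F hF a b c d h h1 h2
  rw [mul_assoc, cf_x, cf_x, cf_y, cf_y]
  apply hF
  · linarith
  · rcases le_total c d with hcd | hcd
    · rw [min_eq_left hcd] at h1; rw [min_eq_left (by omega)]; omega
    · rw [min_eq_right hcd] at h1; rw [min_eq_right (by omega)]; omega
  · rcases le_total c d with hcd | hcd
    · rw [max_eq_right hcd] at h2; rw [max_eq_right (by omega)]; omega
    · rw [max_eq_left hcd] at h2; rw [max_eq_left (by omega)]; omega

/-- `g n = h_(n-1)`, the sum of all monomials of degree `n - 1` -/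
noncomputable def g (n : ℕ) : A := ∑ k ∈ Finset.range n, x ^ k * y ^ (n - 1 - k)

lemma g_zero : g 0 = 0 := by simp [g]

lemma g_one : g 1 = 1 := by simp [g]

lemma g_sym (n : ℕ) : g n = ∑ k ∈ Finset.range n, y ^ k * x ^ (n - 1 - k) := by
  rw [g, ← Finset.sum_range_reflect]
  apply Finset.sum_congr rfl
  intro k hk
  rw [Finset.mem_range] at hk
  have e : n - 1 - (n - 1 - k) = k := by omega
  rw [e, mul_comm]

lemma g_succ (n : ℕ) : g (n + 1) = y * g n + x ^ n := by
  have h : ∑ k ∈ Finset.range n, x ^ k * y ^ (n + 1 - 1 - k) =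
      y * ∑ k ∈ Finset.range n, x ^ k * y ^ (n - 1 - k) := by
    rw [Finset.mul_sum]
    apply Finset.sum_congr rfl
    intro k hk
    rw [Finset.mem_range] at hk
    have : n + 1 - 1 - k = (n - 1 - k) + 1 := by omega
    rw [this, pow_succ]
    ring
  have e : n + 1 - 1 - n = 0 := by omega
  rw [g, Finset.sum_range_succ, h, e, pow_zero, mul_one, g]

lemma g_succ' (n : ℕ) : g (n + 1) = x * g n + y ^ n := by
  have h : ∑ k ∈ Finset.range n, y ^ k * x ^ (n + 1 - 1 - k) =
      x * ∑ k ∈ Finset.range n, y ^ k * x ^ (n - 1 - k) := by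
    rw [Finset.mul_sum]
    apply Finset.sum_congr rfl
    intro k hk
    rw [Finset.mem_range] at hk
    have : n + 1 - 1 - k = (n - 1 - k) + 1 := by omega
    rw [this, pow_succ]
    ring
  have e : n + 1 - 1 - n = 0 := by omega
  rw [g_sym, Finset.sum_range_succ, h, e, pow_zero, mul_one, g_sym]

lemma xpow (n : ℕ) : x ^ n = g (n + 1) - y * g n := by rw [g_succ]; ring

lemma ypow (n : ℕ) : y ^ n = g (n + 1) - x * g n := by rw [g_succ']; ring

lemma g_rec (n : ℕ) : g (n + 2) = (x + y) * g (n + 1) - x * y * g n := by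
  have h1 := g_succ (n + 1)
  have h2 := xpow n
  rw [h1, pow_succ, h2]
  ring

lemma cf_g_comm (n : ℕ) {F : A} (hF : Pos F) (i j : ℤ) : cf (g n * F) i j = cf (g n * F) j i := by
  have e : ∀ (s : Finset ℕ) (f : ℕ → A) (i j : ℤ), cf (∑ k ∈ s, f k) i j = ∑ k ∈ s, cf (f k) i j := by
    intro s f i j
    classical
    induction s using Finset.induction_on with
    | empty => simp [cf_zero]
    | insert a s ha ih => rw [Finset.sum_insert ha, cf_add, ih, Finset.sum_insert ha]
  have h1 : cf (g n * F) i j = ∑ k ∈ Finset.range n, cf F (i - k) (j - (n - 1 - k : ℕ)) := by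
    rw [g, Finset.sum_mul, e]
    apply Finset.sum_congr rfl
    intro k _
    rw [mul_assoc, cf_xpow, cf_ypow]
  have h2 : cf (g n * F) j i = ∑ k ∈ Finset.range n, cf F (j - (n - 1 - k : ℕ)) (i - k) := by
    rw [g_sym, Finset.sum_mul, e]
    apply Finset.sum_congr rfl
    intro k _
    rw [mul_assoc, cf_ypow, cf_xpow]
  rw [h1, h2]
  apply Finset.sum_congr rfl
  intro k _
  exact hF.symm _ _

lemma Mul.g (n : ℕ) : Mul (g n) := by
  intro F hF
  apply pos_of_step (cf_g_comm n hF)
  intro i j hij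
  have key : cf ((x - y) * (Cat.g n * F)) (i + 1) j =
      cf (Cat.g n * F) i j - cf (Cat.g n * F) (i + 1) (j - 1) := by
    have e : i + 1 - 1 = i := by ring
    rw [sub_mul, cf_sub, cf_x, cf_y, e]
  have key2 : (x - y) * (Cat.g n * F) = x ^ n * F - y ^ n * F := by
    rw [xpow, ypow]; ring
  rw [key2, cf_sub, cf_xpow, cf_ypow] at key
  have := hF (i + 1 - n) j (i + 1) (j - n) (by ring)
    (by rw [min_eq_right (by omega)]; omega) (by rw [max_eq_left (by omega)]; omega)
  linarith

lemma Mul.e1 : Mul (x + y) := by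
  have h := Mul.g 2
  have e : Cat.g 2 = x + y := by
    rw [g_rec 0, g_zero, g_one]; ring
  rwa [e] at h

end Pool.Agent.Lib.MP_24a1b5_co.Cat
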